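import Pool.Agent.Q43.TR.Dich

/-!
# Prime triplets: two primes and a rough third member, or `k` small factors in a narrow arithmetic progression

The members of a possible triplet are `p`, `p + b`, `p + b'` with `{b, b'} = {2, 6}` or `{4, 6}`. At every large scale
and in every window one of the following holds: with at least the order of magnitude predicted by Hardy and
Littlewood for the triplets, `p` and `p + b` are prime and `p + b'` has no small prime factor; or there are `k`
primes `q` in a narrow arithmetic progression such that, for every one of them, `p` and `(p + b) / q` are prime and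
`p + b'` has no small prime factor, again with the expected order of magnitude.

Libraries: `Y840.CT.GenF` (Chen's theorem for systems of shifts in windows), `Y151.HS.FLC` (fundamental lemma in
residue classes), `Y843.HS.Top` (Szemerédi's theorem relative to sifted sets), all starting files.
-/

set_option autoImplicit false

namespace Pool.Agent.Results.MP_dddec0_nt.FactorsInProgression

open Finset Filter
open Pool.Agent.Y840.CT Pool.Agent.Q253.Thin

/-- The pairs of shifts `(b, b')` such that `p, p + b, p + b'` are the members of a possible prime triplet. -/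
def Shifts (b b' : ℕ) : Prop :=
  (b = 6 ∧ (b' = 2 ∨ b' = 4)) ∨ (b' = 6 ∧ (b = 2 ∨ b = 4))

/-- All prime factors of `n` are larger than `y`. -/
def NoSmall (y : ℝ) (n : ℕ) : Prop := ∀ l : ℕ, l.Prime → l ∣ n → y < l

/-- The number of the primes `u < p ≤ v` such that `p + b` is prime and all prime factors of `p + b'` are larger
than `y`. -/
noncomputable def cnt (b b' : ℕ) (y : ℝ) (u v : ℕ) : ℕ :=
  {p : ℕ | u < p ∧ p ≤ v ∧ p.Prime ∧ (p + b).Prime ∧ NoSmall y (p + b')}.ncard

/-- The number of the primes `u < p ≤ v` such that `(p + b) / q` is a prime `≥ q` and all prime factors of `p + b'` are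
larger than `y`. -/
noncomputable def cntq (b b' : ℕ) (y : ℝ) (u v q : ℕ) : ℕ :=
  {p : ℕ | u < p ∧ p ≤ v ∧ p.Prime ∧ (∃ q' : ℕ, q'.Prime ∧ q ≤ q' ∧ p + b = q * q') ∧ NoSmall y (p + b')}.ncard

/-- The primes `q` for which `cntq` has the expected order of magnitude. -/
def Good (c y : ℝ) (b b' N u v q : ℕ) : Prop :=
  q.Prime ∧ (N : ℝ) ^ (1 / 9 : ℝ) < q ∧ q ^ 2 ≤ N + b ∧
    c * (((v : ℝ) - u) / (q * Real.log N ^ 3)) ≤ cntq b b' y u v q

lemma fin_window (P : ℕ → Prop) (u v : ℕ) : {p : ℕ | u < p ∧ p ≤ v ∧ P p}.Finite := by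
  apply (finite_toSet (Ioc u v)).subset
  rintro x ⟨h1, h2, _⟩
  rw [mem_coe, mem_Ioc]
  exact ⟨h1, h2⟩

/-- the negative shifts -/
def sh (b b' : ℕ) : Fin 2 → ℤ := ![-(b : ℤ), -(b' : ℤ)]

lemma im (b b' : ℕ) : (univ : Finset (Fin 2)).image (sh b b') = {-(b : ℤ), -(b' : ℤ)} := by
  ext z
  simp [sh, Fin.exists_fin_two, eq_comm]

lemma adm {b b' : ℕ} (h : Shifts b b') : Adm 2 (sh b b') 0 := by
  classical
  refine ⟨?_, ?_⟩
  · unfold sh
    simp only [Matrix.cons_val_zero, ne_eq, neg_eq_zero]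
    rcases h with ⟨h, _⟩ | ⟨_, h | h⟩ <;> subst h <;> norm_num
  · intro q hq
    rw [im]
    have hq2 := hq.two_le
    by_cases h5 : 4 ≤ q
    · unfold rho
      refine lt_of_le_of_lt (card_image_le.trans ((card_insert_le _ _).trans (Nat.add_le_add_right card_le_two 1))) ?_
      omega
    · have h23 : q = 2 ∨ q = 3 := by omega
      rcases h23 with rfl | rfl
      · rcases h with ⟨rfl, rfl | rfl⟩ | ⟨rfl, rfl | rfl⟩ <;> decide
      · rcases h with ⟨rfl, rfl | rfl⟩ | ⟨rfl, rfl | rfl⟩ <;> decide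

/-- There are `t ≥ 1` and `c, ρ > 0` such that for all `k` and `θ > 0` there are `D` and `N₀` such that for all
`N ≥ N₀`, all four pairs of shifts `(b, b')` with `{b, b'} = {2, 6}` or `{4, 6}`, and all `0 ≤ u < v ≤ N` with `v - u ≥ θ N`
one of the following holds, with `y = N ^ (1/t)`:

(1) for at least `c (v - u) / log ^ 3 N` primes `p` of `(u, v]` the number `p + b` is prime and all prime factors of
`p + b'` are larger than `y`;

(2) `∑ 1 / q ≥ ρ` for the primes `q > N ^ (1/9)`, `q ^ 2 ≤ N + b`, such that for at least `c (v - u) / (q log ^ 3 N)` primes `p`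
of `(u, v]` the number `(p + b) / q` is a prime `≥ q` and all prime factors of `p + b'` are larger than `y`; and there
are `k` such primes `q` in an arithmetic progression with difference at most `log ^ D N`. -/
theorem result : ∃ (t : ℕ) (c ρ : ℝ), 1 ≤ t ∧ 0 < c ∧ 0 < ρ ∧ ∀ (k : ℕ) (θ : ℝ), 0 < θ → ∃ D N₀ : ℕ,
    ∀ N : ℕ, N₀ ≤ N → ∀ b b' : ℕ, Shifts b b' → ∀ u v : ℕ, v ≤ N → θ * N ≤ (v : ℝ) - u →
      c * (((v : ℝ) - u) / Real.log N ^ 3) ≤ cnt b b' ((N : ℝ) ^ (1 / (t : ℝ))) u v ∨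
      ((∃ G : Finset ℕ, (∀ q ∈ G, Good c ((N : ℝ) ^ (1 / (t : ℝ))) b b' N u v q) ∧ ρ ≤ ∑ q ∈ G, (1 : ℝ) / q) ∧
        ∃ q d : ℕ, 1 ≤ d ∧ (d : ℝ) ≤ Real.log N ^ D ∧
          ∀ j < k, Good c ((N : ℝ) ^ (1 / (t : ℝ))) b b' N u v (q + j * d)) := by
  classical
  obtain ⟨t, ht, c0, hc0, ρ, hρ, hd⟩ := Q43.TR.dich_both 2
  obtain ⟨cV, hcV, hV⟩ := VF_low 2
  refine ⟨t, c0 * cV, ρ, ht, by positivity, hρ, ?_⟩
  intro k θ hθ
  obtain ⟨D, X₁, h1⟩ := hd k θ hθ
  refine ⟨D, max X₁ 6, ?_⟩
  intro N hN b b' hb u v hv huv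
  have n1 : X₁ ≤ N := (le_max_left _ _).trans hN
  have n2 : 6 ≤ N := (le_max_right _ _).trans hN
  have hb6 : b ≤ 6 := by
    rcases hb with ⟨h, _⟩ | ⟨_, h | h⟩ <;> omega
  have hNr : (6 : ℝ) ≤ N := by exact_mod_cast n2
  have hN0 : (0 : ℝ) < N := by linarith
  have hlN : 0 < Real.log N := Real.log_pos (by linarith)
  have huv0 : (0 : ℝ) < (v : ℝ) - u := lt_of_lt_of_le (by positivity) huv
  have hsys : SysF 2 N (FT (sh b b')) (sh b b' 0) := (adm hb).sys (by
    unfold sh
    simp only [Matrix.cons_val_zero, abs_neg, Nat.abs_cast]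
    exact_mod_cast hb6.trans n2)
  have hVN := hV N (by omega) (FT (sh b b')) hsys.card hsys.loc
  have hshift : ∀ p : ℕ, (sh b b' 0 - (p : ℤ)).natAbs = p + b := by
    intro p
    unfold sh
    simp only [Matrix.cons_val_zero]
    omega
  set y : ℝ := (N : ℝ) ^ (1 / (t : ℝ)) with hy
  have hgood : ∀ p ∈ GoodF t N u v (FT (sh b b')) (sh b b' 0), u < p ∧ p ≤ v ∧ p.Prime ∧ NoSmall y (p + b') := by
    intro p hp
    unfold GoodF at hp
    rw [mem_filter, mem_Ioc] at hp
    obtain ⟨⟨p1, p2⟩, pp, pt, -, pF⟩ := hp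
    refine ⟨p1, p2, pp, ?_⟩
    intro l hl hd
    by_contra hcon
    push Not at hcon
    apply pF l hl hcon (-(b' : ℤ))
    · unfold FT
      rw [im]
      simp
    · have h2 : (-(b' : ℤ)) - (p : ℤ) = -(((p + b' : ℕ) : ℤ)) := by
        push_cast
        ring
      rw [h2]
      exact (dvd_neg).2 (by exact_mod_cast hd)
  have hlow : ∀ q : ℝ, 0 < q → c0 * cV * (((v : ℝ) - u) / (q * Real.log N ^ 3)) ≤
      c0 * (((v : ℝ) - u) * VF (FT (sh b b')) N / q) := by
    intro q hq
    have h2 : c0 * cV * (((v : ℝ) - u) / (q * Real.log N ^ 3)) =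
        c0 * (((v : ℝ) - u) * (cV / Real.log N ^ (2 + 1)) / q) := by
      field_simp
    rw [h2]
    apply mul_le_mul_of_nonneg_left _ hc0.le
    apply div_le_div_of_nonneg_right _ hq.le
    exact mul_le_mul_of_nonneg_left hVN huv0.le
  have hGd : ∀ q ∈ Gd c0 t N u v (FT (sh b b')) (sh b b' 0), Good (c0 * cV) y b b' N u v q := by
    intro q hq
    unfold Gd at hq
    rw [mem_filter] at hq
    obtain ⟨_, ⟨a1, a2⟩, _, a4⟩ := hq
    have hq0 : (0 : ℝ) < q := by exact_mod_cast a1.pos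
    have hRF : (RF t N u v (FT (sh b b')) (sh b b' 0) q).card ≤ cntq b b' y u v q := by
      unfold cntq
      rw [← Set.ncard_coe_finset]
      apply Set.ncard_le_ncard _ (fin_window _ u v)
      intro p hp
      rw [mem_coe] at hp
      unfold RF at hp
      rw [mem_filter] at hp
      obtain ⟨hp1, q', hq', hqq', hpq⟩ := hp
      obtain ⟨b1, b2, b3, b4⟩ := hgood p hp1
      rw [hshift] at hpq
      exact ⟨b1, b2, b3, ⟨q', hq', hqq', hpq⟩, b4⟩
    have hRFr : ((RF t N u v (FT (sh b b')) (sh b b' 0) q).card : ℝ) ≤ cntq b b' y u v q := by exact_mod_cast hRF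
    have hl := ((hlow q hq0).trans a4).trans hRFr
    refine ⟨a1, a2, ?_, hl⟩
    have hpos : 0 < c0 * cV * (((v : ℝ) - u) / (q * Real.log N ^ 3)) := by positivity
    have hne : 0 < cntq b b' y u v q := by
      have : (0 : ℝ) < cntq b b' y u v q := lt_of_lt_of_le hpos hl
      exact_mod_cast this
    unfold cntq at hne
    rw [Set.ncard_pos (fin_window _ u v)] at hne
    obtain ⟨p, hp1, hp2, _, ⟨q', _, hqq', hpq⟩, _⟩ := hne
    have : q * q ≤ q * q' := Nat.mul_le_mul_left _ hqq'
    rw [pow_two]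
    omega
  rcases h1 N n1 (FT (sh b b')) (sh b b' 0) hsys u v hv huv with h | ⟨h, q, d, h2, h3, h4⟩
  · left
    have hPF : (PF t N u v (FT (sh b b')) (sh b b' 0)).card ≤ cnt b b' y u v := by
      unfold cnt
      rw [← Set.ncard_coe_finset]
      apply Set.ncard_le_ncard _ (fin_window _ u v)
      intro p hp
      rw [mem_coe] at hp
      unfold PF at hp
      rw [mem_filter, hshift] at hp
      obtain ⟨b1, b2, b3, b4⟩ := hgood p hp.1
      exact ⟨b1, b2, b3, hp.2, b4⟩
    have hPFr : ((PF t N u v (FT (sh b b')) (sh b b' 0)).card : ℝ) ≤ cnt b b' y u v := by exact_mod_cast hPF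
    have h2 := hlow 1 one_pos
    rw [one_mul, div_one] at h2
    exact (h2.trans h).trans hPFr
  · right
    exact ⟨⟨_, hGd, h⟩, q, d, h2, h3, fun j hj => hGd _ (h4 j hj)⟩

end Pool.Agent.Results.MP_dddec0_nt.FactorsInProgression
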