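import Mathlib
import Pool.Agent.Q118.HW.Forms
import Pool.Agent.Q118.HW.Fun

/-!
# Arbitrary functions have near prime values along a positive proportion of the homothetic grids

Let `D`, `k`, `m` be fixed. There are `c > 0` and `C` such that for all large `x`, for ALL `N ≥ C` and EVERY
function `f` on the grid `{0, ..., N} ^ D` whose values are integers of absolute value at most `x`, there are at least
`c * N ^ (D + 1)` pairs `(a, b)`, `a ∈ {0, ..., N} ^ D`, `1 ≤ b ≤ N`, with `a + b {0, ..., k} ^ D ⊆ {0, ..., N} ^ D` for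
which the family of the `(k + 1) ^ D` values `f (a + b i)`, `i ∈ {0, ..., k} ^ D`, is good: there are pairwise disjoint sets
`A i` of `m` integers each, with `|s - f (a + b i)| ≤ C` for `s ∈ A i`, such that for at least `x / (log x) ^ C` integers
`0 ≤ n ≤ C x` all the numbers `n + s` are primes.

The same for combinatorial lines: for every finite alphabet `α` and every `m` there are a length `l` and `C` such that for
all large `x` every integer valued function `|v w| ≤ x` of the words `w` of length `l` has a combinatorial line on which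
its values form a good family.

Proof: the uniform coloured Maynard-Tao theorem and the density Hales-Jewett theorem, both of the starting files.
-/

set_option autoImplicit false

namespace Pool.Agent.Results.MP_dddec0_nt.HomotheticGridsLog

open Finset Filter

/-- The family `u t` is good: there are pairwise disjoint sets `A t` of `m` integers each, with
`|s - u t| ≤ C` for `s ∈ A t`, such that for at least `x / (log x) ^ C` integers `0 ≤ n ≤ C x` all the numbers `n + s`,
`s ∈ A t`, are primes. -/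
def Good (C m x : ℕ) {V : Type} (u : V → ℤ) : Prop :=
  ∃ A : V → Finset ℤ, (∀ t, (A t).card = m ∧ ∀ s ∈ A t, |s - u t| ≤ C) ∧
    (∀ t t', t ≠ t' → Disjoint (A t) (A t')) ∧
    (x : ℝ) / Real.log x ^ C ≤
      ({n : ℕ | n ≤ C * x ∧ ∀ t, ∀ s ∈ A t, ((n : ℤ) + s).toNat.Prime}.ncard : ℝ)

theorem good_of {C m x : ℕ} {V : Type} [Fintype V] {u : V → ℤ}
    (h : Pool.Agent.Q118.HW.GF m C x V univ (fun t => (1, u t))) : Good C m x u := by
  obtain ⟨E, h1, h2, h3⟩ := h
  refine ⟨E, fun t => h1 t (mem_univ t), fun t t' hne => ?_, h3.trans ?_⟩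
  · rw [Finset.disjoint_left]
    intro a ha ha'
    exact h2 t (mem_univ t) t' (mem_univ t') hne a ha a ha' rfl
  · rw [Nat.cast_le]
    apply Set.ncard_le_ncard _ (Pool.Agent.Q118.HW.finS _ _)
    intro n hn
    refine ⟨hn.1, fun t s hs => ?_⟩
    have := hn.2 t (mem_univ t) s hs
    rwa [one_mul] at this

open Classical in
theorem result :
    (∀ D k m : ℕ, ∃ (c : ℝ) (C : ℕ), 0 < c ∧ ∀ᶠ x : ℕ in atTop, ∀ N : ℕ, C ≤ N →
      ∀ f : (Fin D → ℕ) → ℤ, (∀ y, (∀ j, y j ≤ N) → |f y| ≤ x) →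
        c * (N : ℝ) ^ (D + 1) ≤ (((univ : Finset ((Fin D → Fin (N + 1)) × Fin (N + 1))).filter (fun q =>
          1 ≤ (q.2 : ℕ) ∧ (∀ j, (q.1 j : ℕ) + k * (q.2 : ℕ) ≤ N) ∧
          Good C m x (fun i : Fin D → Fin (k + 1) => f (fun j => (q.1 j : ℕ) + (q.2 : ℕ) * (i j : ℕ))))).card : ℝ)) ∧
    (∀ (α : Type) [Fintype α] [Nonempty α] (m : ℕ), ∃ l C : ℕ, ∀ᶠ x : ℕ in atTop,
      ∀ v : (Fin l → α) → ℤ, (∀ w, |v w| ≤ x) →
        ∃ L : Combinatorics.Line α (Fin l), Good C m x (fun a => v (L a))) := by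
  have h5 : (0 : ℝ) < 5 / 18 := by norm_num
  refine ⟨fun D k m => ?_, fun α _ _ m => ?_⟩
  · obtain ⟨c, C, hc, h⟩ := Pool.Agent.Q118.HW.funcX (Pool.Agent.Q118.HW.ΓF m 1 le_rfl) h5
      (fun V => Pool.Agent.Q118.HW.carriesF m 1 le_rfl V) D k
    refine ⟨c, C, hc, ?_⟩
    filter_upwards [h] with x hx N hN f hf
    refine (hx N hN (fun y => (1, f y)) (fun y hy => ⟨le_rfl, by norm_num, hf y hy⟩)).trans ?_
    rw [Nat.cast_le]
    apply card_le_card
    intro q hq
    rw [mem_filter] at hq ⊢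
    exact ⟨hq.1, hq.2.1, hq.2.2.1, good_of hq.2.2.2⟩
  · obtain ⟨l, C, h⟩ := Pool.Agent.Q118.HW.linesX (Pool.Agent.Q118.HW.ΓF m 1 le_rfl) h5
      (fun V => Pool.Agent.Q118.HW.carriesF m 1 le_rfl V) α
    refine ⟨l, C, ?_⟩
    filter_upwards [h] with x hx v hv
    obtain ⟨L, hL⟩ := hx (fun w => (1, v w)) (fun w => ⟨le_rfl, by norm_num, hv w⟩)
    exact ⟨L, good_of hL⟩

end Pool.Agent.Results.MP_dddec0_nt.HomotheticGridsLog
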