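import Pool.Agent.Q117.LF.Main5

/-!
MP_dddec0_nt (infinitely many prime triplets): every string of types and of residue classes modulo any `q` occurs for consecutive almost prime triplets with
the right order of magnitude, with an actual prime and a product of at most two primes at any two places of the string.
-/

set_option autoImplicit false

namespace Pool.Agent.Results.MP_dddec0_nt.StringsOfTriplets

/-- all prime factors of `m` are `> z` (so `0` is not rough) -/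
def Rough (z : ℝ) (m : ℤ) : Prop := ∀ p : ℕ, p.Prime → (p : ℤ) ∣ m → z < p

/-- at most two prime factors (with multiplicity), all `> z` -/
def AtMostTwo (z : ℝ) (m : ℤ) : Prop := m.natAbs.primeFactorsList.length ≤ 2 ∧ Rough z m

/-- the two shapes -/
def shape : Fin 2 → Finset ℕ := ![{0, 2, 6}, {0, 4, 6}]

/-- `m` is the first member of an almost prime triplet of shape `γ` -/
def Triplet (z : ℝ) (γ : Fin 2) (m : ℤ) : Prop := ∀ h ∈ shape γ, Rough z (m + h)

/-- `m 0 < ... < m J` are consecutive almost prime triplets, the `j`-th one of shape `τ j`, `m J ≤ m 0 + L`, and there are no others of either shape at distance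
`≤ L` from `m 0` -/
def Run (z L : ℝ) {J : ℕ} (τ : Fin (J + 1) → Fin 2) (m : Fin (J + 1) → ℕ) : Prop :=
  StrictMono m ∧ (∀ j, Triplet z (τ j) (m j) ∧ (m j : ℝ) ≤ m 0 + L) ∧
    ∀ γ, ∀ k : ℤ, |((k - m 0 : ℤ) : ℝ)| ≤ L → Triplet z γ k → ∃ j, k = m j ∧ γ = τ j

/-- the `n ∈ (X, 2X]` which begin a run `n = m 0, ..., m J` of consecutive almost prime triplets of shapes `τ j` with `m j ≡ a j (mod q)`, such that `m j₁ + h₁` is
prime and `m j₂ + h₂` has at most two prime factors, all `> X ^ (1/9)` -/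
def Strings (q : ℕ) (z X L : ℝ) {J : ℕ} (τ : Fin (J + 1) → Fin 2) (a : Fin (J + 1) → ℕ) (j₁ j₂ : Fin (J + 1)) (h₁ h₂ : ℕ) : Set ℕ :=
  {n : ℕ | X < n ∧ (n : ℝ) ≤ 2 * X ∧ ∃ m : Fin (J + 1) → ℕ, m 0 = n ∧ Run z L τ m ∧ (∀ j, m j ≡ a j [MOD q]) ∧ (m j₁ + h₁).Prime ∧
    AtMostTwo (X ^ (1 / 9 : ℝ)) ((m j₂ + h₂ : ℕ) : ℤ)}

theorem adm : ∀ γ : Fin 2, ∀ p : ℕ, p.Prime → ∃ r : ℕ, ∀ h ∈ shape γ, ¬ p ∣ r + h := by
  intro γ p hp
  have hr : ∃ r : ℕ, r ∈ ({1, 11, 13, 17, 19, 7} : Finset ℕ) ∧ (∀ h ∈ shape γ, ¬ 2 ∣ r + h ∧ ¬ 3 ∣ r + h ∧ ¬ 5 ∣ r + h) := by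
    fin_cases γ
    · exact ⟨11, by decide, by decide⟩
    · exact ⟨7, by decide, by decide⟩
  obtain ⟨r, -, hr⟩ := hr
  rcases Nat.lt_or_ge 5 p with h5 | h5
  · -- more classes than elements
    by_contra hcon
    push Not at hcon
    have hsub : Finset.range p ⊆ (shape γ).image (fun h => (p - h % p) % p) := by
      intro x hx
      rw [Finset.mem_range] at hx
      obtain ⟨h, hh, hd⟩ := hcon x
      rw [Finset.mem_image]
      refine ⟨h, hh, ?_⟩
      have h6 : (x + h) % p = 0 := Nat.mod_eq_zero_of_dvd hd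
      have h7 : (x + h % p) % p = 0 := by rw [Nat.add_mod_mod]; exact h6
      have h8 : h % p < p := Nat.mod_lt _ hp.pos
      rcases Nat.eq_zero_or_pos (h % p) with h9 | h9
      · rw [h9, Nat.sub_zero, Nat.mod_self]
        rw [h9, Nat.add_zero, Nat.mod_eq_of_lt hx] at h7
        exact h7.symm
      · have h10 : x + h % p = p := by
          obtain ⟨c, hc⟩ := Nat.dvd_of_mod_eq_zero h7
          have h11 : 0 < c := by
            rcases Nat.eq_zero_or_pos c with h0 | h0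
            · rw [h0] at hc; omega
            · exact h0
          have h12 : c < 2 := by
            by_contra h13
            push Not at h13
            have : p * 2 ≤ p * c := Nat.mul_le_mul_left p h13
            omega
          have h14 : c = 1 := by omega
          rw [h14] at hc
          omega
        rw [Nat.mod_eq_of_lt (by omega)]
        omega
    have h15 := Finset.card_le_card hsub
    rw [Finset.card_range] at h15
    have h16 := Finset.card_image_le (s := shape γ) (f := fun h => (p - h % p) % p)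
    have h17 : (shape γ).card ≤ 4 := by fin_cases γ <;> decide
    omega
  · refine ⟨r, fun h hh => ?_⟩
    obtain ⟨a2, a3, a5⟩ := hr h hh
    have hp2 := hp.two_le
    interval_cases p
    · exact a2
    · exact a3
    · exact absurd hp (by norm_num)
    · exact a5

theorem result : ∀ (J q : ℕ) (τ : Fin (J + 1) → Fin 2) (a : Fin (J + 1) → ℕ), 1 ≤ q → (∀ j, ∀ h ∈ shape (τ j), (a j + h).Coprime q) →
    ∀ (j₁ j₂ : Fin (J + 1)) (h₁ h₂ : ℕ), h₁ ∈ shape (τ j₁) → h₂ ∈ shape (τ j₂) → (j₁ ≠ j₂ ∨ h₁ ≠ h₂) →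
    ∃ t : ℕ, 1 ≤ t ∧ ∃ c : ℝ, 0 < c ∧ ∃ ν : ℝ, 0 < ν ∧ ∃ X0 : ℝ, ∀ X : ℝ, X0 ≤ X →
      c * (X / Real.log X ^ 3) ≤ ((Strings q (X ^ (1 / (t : ℝ))) X (ν * Real.log X ^ 3) τ a j₁ j₂ h₁ h₂).ncard : ℝ) := by
  intro J q τ a hq ha j₁ j₂ h₁ h₂ m1 m2 hne
  obtain ⟨t, ht, c, hc, ν, hν, X0, h⟩ := Pool.Agent.Q117.LF.stcC J 2 q 3 shape hq (by norm_num)
    (fun γ => by fin_cases γ <;> exact ⟨by decide, by decide⟩)
    (fun x y hxy => by
      fin_cases x <;> fin_cases y <;> first | rfl | exact absurd hxy (by decide))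
    τ a (fun j => adm (τ j)) ha j₁ j₂ h₁ h₂ m1 m2 hne
  refine ⟨t, ht, c, hc, ν, hν, max X0 0, fun X hX => (h X ((le_max_left _ _).trans hX)).trans ?_⟩
  have hfin : (Strings q (X ^ (1 / (t : ℝ))) X (ν * Real.log X ^ 3) τ a j₁ j₂ h₁ h₂).Finite := by
    apply Set.Finite.subset (Set.finite_Iic ⌊2 * X⌋₊)
    rintro n ⟨-, h2, -⟩
    exact Nat.le_floor h2
  rw [Nat.cast_le]
  apply Set.ncard_le_ncard _ hfin
  rintro n ⟨g1, g2, m, g3, g4, g5, g6, g7, g8, g9, g10⟩
  refine ⟨g1, g2, m, g3, ⟨g4, fun j => ⟨g7 j, ?_⟩, fun γ k hk hT => ?_⟩, g6, g8, g9⟩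
  · rw [g3]
    exact g5 j
  · rw [g3] at hk
    exact g10 γ k hk hT

end Pool.Agent.Results.MP_dddec0_nt.StringsOfTriplets
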